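import Pool.Agent.H730R4.Gap
import Pool.Agent.H730R4.Chi

/-!
# Almost perfect tilings in ordered graphs: a constant error is impossible in general

The problem asks whether, for every ordered graph `H`, every ordered graph `G` on `n` vertices
with minimum degree at least `(1 - 1/χ*_cr(H)) n` has an `H`-tiling covering all but at most
`C(H)` vertices. The answer is no.

Let `H` be the ordered complete tripartite graph with parts the intervals `{0,1}`, `{2,3}`,
`{4,5}`. It is a bottlegraph of itself and `χ*_cr(H) = 3`. Let `G` consist of three consecutive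
intervals `V₁ < V₂ < V₃` of sizes `N - s`, `N`, `N + s`, of all edges between different intervals
and, inside `V₃`, of a graph without 4-cycles all of whose degrees are at least `s`. Then all
degrees of `G` are at least `2 N`, two thirds of the number of vertices. If a copy of `H` had its
second vertex outside `V₁`, then its last four vertices would lie in `V₃` and would span a
4-cycle there. So each copy uses two vertices of `V₁`, there are at most `(N - s) / 2` disjoint
copies, and every `H`-tiling misses at least `3 s` vertices. With the incidence graph of an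
affine plane of order `s = p` in `V₃` this is of the order of the square root of the number of
vertices of `G`.
-/

namespace Pool.Agent.Results.MP_ced62d_co.OrderedTilingGap

open Pool.Agent.H730R4

theorem result : chiStarCr K222 = 3 ∧
    ∀ C : ℕ, ∃ (n : ℕ) (G : SimpleGraph (Fin n)),
      (∀ v, (1 - 1 / chiStarCr K222) * n ≤ ((G.neighborSet v).ncard : ℝ)) ∧
      ∀ T : Set (Fin 6 → Fin n), IsTiling K222 G T →
        C < ((covered T)ᶜ).ncard ∧ √(n : ℝ) ≤ (((covered T)ᶜ).ncard : ℝ) := by
  refine ⟨chiStarCr_K222, fun C => ?_⟩
  obtain ⟨p, hpC, hp⟩ := Nat.exists_infinite_primes (C + 1)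
  obtain ⟨G, hG, hT⟩ := exists_big p hp
  refine ⟨6 * p ^ 2 - 3 * p, G, fun v => ?_, fun T hTil => ?_⟩
  · rw [chiStarCr_K222]
    have h : (2 : ℝ) * ((6 * p ^ 2 - 3 * p : ℕ) : ℝ) ≤ 3 * ((G.neighborSet v).ncard : ℝ) := by
      exact_mod_cast hG v
    linarith
  · have h := hT T hTil
    refine ⟨by omega, ?_⟩
    rw [Real.sqrt_le_left (by positivity)]
    have h1 : 6 * p ^ 2 - 3 * p ≤ ((covered T)ᶜ).ncard ^ 2 := by
      calc 6 * p ^ 2 - 3 * p ≤ 6 * p ^ 2 := Nat.sub_le _ _
        _ ≤ (3 * p) ^ 2 := by nlinarith
        _ ≤ ((covered T)ᶜ).ncard ^ 2 := Nat.pow_le_pow_left h 2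
    exact_mod_cast h1

end Pool.Agent.Results.MP_ced62d_co.OrderedTilingGap
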