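import Pool.Agent.H721R3.OT.Big

set_option autoImplicit false

namespace Pool.Agent.Results.MP_ced62d_co.UnboundedLeftover

open H721R3.OT

/-- There is an ordered graph `H` such that for all `C` and `N` there is an ordered graph `G` on
`n ≥ N` vertices with minimum degree at least `(1 - 1/χ*_cr(H)) n` in which every `H`-tiling
leaves more than `C` vertices uncovered. -/
theorem result :
    ∃ (h : ℕ) (H : SimpleGraph (Fin h)), ∀ C N : ℕ, ∃ n : ℕ, N ≤ n ∧
      ∃ G : SimpleGraph (Fin n),
        (∀ v : Fin n, (1 - 1 / chiStar H) * (n : ℝ) ≤ (Nat.card {w : Fin n // G.Adj v w} : ℝ)) ∧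
        ∀ T : Set (Fin h → Fin n), IsTiling H G T →
          C < Nat.card {v : Fin n // ¬ Covered T v} := by
  refine ⟨8, H8, fun C N => ?_⟩
  have hN : N ≤ nn (C + N + 1) := by
    unfold nn
    nlinarith [Nat.zero_le ((C + N + 1) ^ 2), Nat.zero_le C, Nat.zero_le N]
  refine ⟨nn (C + N + 1), hN, GG (C + N + 1), ?_, ?_⟩
  · intro v
    have hd := deg (C + N + 1) v
    have hd' : (((C + N + 1) * (10 * (C + N + 1) ^ 2 + 5) : ℕ) : ℝ) ≤
        (Nat.card {w // (GG (C + N + 1)).Adj v w} : ℝ) := by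
      exact_mod_cast hd
    refine le_trans ?_ hd'
    have ht := threshold
    have hn : (0 : ℝ) ≤ (nn (C + N + 1) : ℝ) := Nat.cast_nonneg _
    calc (1 - 1 / chiStar H8) * (nn (C + N + 1) : ℝ) ≤ 5 / 8 * (nn (C + N + 1) : ℝ) :=
          mul_le_mul_of_nonneg_right ht hn
      _ = (((C + N + 1) * (10 * (C + N + 1) ^ 2 + 5) : ℕ) : ℝ) := by
          unfold nn
          push_cast
          ring
  · intro T hT
    have := uncovered (C + N + 1) T hT
    omega

end Pool.Agent.Results.MP_ced62d_co.UnboundedLeftover
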